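import Pool.Agent.Q140.Rig.Ker
import Pool.Agent.TH912.Rig.Dense

/-!
# Coverings by rigid sets, and combinatorially certified rigid sets
-/

set_option autoImplicit false

namespace Pool.Agent.Q140.Rig

open Matrix Finset Pool.Agent.H789R5 Pool.Agent.H283R2.DR Pool.Agent.TH912.Rig

variable {V : Type} {p : V → Fin 3 → ℝ}

open Classical in
/-- **Certified sets.** The vertex sets of complete bipartite subgraphs with `4` and at least `12`
vertices are certified; a vertex with three neighbours in a certified set may be added; and the union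
of two certified sets `A`, `B` is certified if for each set `U` of at most two vertices of `A ∪ B`
which contains `A ∩ B` there are at least `6`, `3`, `1` edges between `A \ U` and `B \ U` if `U` has
`0`, `1`, `2` elements (so in particular if `A` and `B` have three common vertices). -/
inductive Cert (G : SimpleGraph V) : Finset V → Prop
  | bip (Z Y : Finset V) : Z.card = 4 → 12 ≤ Y.card → (∀ z ∈ Z, ∀ y ∈ Y, G.Adj z y) → Cert G (Z ∪ Y)
  | add (A T : Finset V) (v : V) : Cert G A → T ⊆ A → T.card = 3 → (∀ t ∈ T, G.Adj v t) →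
      Cert G (insert v A)
  | merge (A B : Finset V) : Cert G A → Cert G B →
      (∀ U : Finset V, A ∩ B ⊆ U → U ⊆ A ∪ B → U.card ≤ 2 →
        (4 - U.card).choose 2 ≤ (bars G (A \ U) (B \ U)).card) → Cert G (A ∪ B)

open Classical in
/-- certified sets are rigid -/
theorem Cert.rigid (hp : Gen p) {G : SimpleGraph V} {A : Finset V} (h : Cert G A) :
    RigidOn G (A : Set V) p := by
  induction h with
  | bip Z Y hZ hY hadj => exact rigid_bipartite hp G Z Y hZ (by omega) hadj
  | add A T v _ hT hc hadj ih =>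
    rw [coe_insert]
    exact IL.extend hp G (↑A : Set V) ih v T hc.ge (fun t ht => mem_coe.2 (hT ht)) hadj
  | merge A B _ _ hU ihA ihB => exact two_bodies hp ihA ihB hU

/-- the members of the family are completed -/
def fillG (G : SimpleGraph V) (F : Finset (Finset V)) : SimpleGraph V where
  Adj u v := G.Adj u v ∨ (u ≠ v ∧ ∃ C ∈ F, u ∈ C ∧ v ∈ C)
  symm := ⟨fun _ _ h => h.elim (fun h => Or.inl h.symm)
    fun ⟨h, C, hC, h1, h2⟩ => Or.inr ⟨h.symm, C, hC, h2, h1⟩⟩
  loopless := ⟨fun _ h => h.elim (fun h => h.ne rfl) fun h => h.1 rfl⟩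

/-- the vertices which belong to two members of the family, or to an edge which is in no member -/
def Special (G : SimpleGraph V) (F : Finset (Finset V)) (v : V) : Prop :=
  (∃ C ∈ F, ∃ D ∈ F, C ≠ D ∧ v ∈ C ∧ v ∈ D) ∨ ∃ u, G.Adj u v ∧ ∀ C ∈ F, ¬ (u ∈ C ∧ v ∈ C)

variable [Fintype V]

theorem mot_fill {G : SimpleGraph V} {F : Finset (Finset V)}
    (hF : ∀ C ∈ F, RigidOn G (C : Set V) p) {q : V → Fin 3 → ℝ} (hq : q ∈ Mot G p) :
    q ∈ Mot (fillG G F) p := by
  rw [mem_mot] at hq ⊢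
  intro u v huv
  rcases huv with h | ⟨-, C, hC, hu, hv⟩
  · exact hq u v h
  · obtain ⟨A, b, hA, hb⟩ := hF C hC q (fun x _ y _ hxy => hq x y hxy)
    rw [hb u (mem_coe.2 hu), hb v (mem_coe.2 hv), add_sub_add_right_eq_sub, ← Matrix.mulVec_sub]
    exact skew_dot_self hA _

open Classical in
/-- **The kernel of a covering by rigid sets.** -/
theorem mo_cover (hp : MG p) {G : SimpleGraph V} {F : Finset (Finset V)}
    (hF : ∀ C ∈ F, RigidOn G (C : Set V) p) (hcov : ∀ v, ∃ C ∈ F, v ∈ C) {W : Finset V}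
    (hW : ∀ v, Special G F v → v ∈ W) (h3 : ∀ C ∈ F, 3 ≤ (C ∩ W).card) :
    mo ((fillG G F).induce (W : Set V)) (fun x => p x) = mo G p := by
  have hg := hp.toGen
  have hmaps : ∀ q ∈ Mot G p, res W q ∈ Mot ((fillG G F).induce (W : Set V)) (fun x => p x) := by
    intro q hq
    have h1 := mot_fill hF hq
    rw [mem_mot] at h1 ⊢
    intro u v huv
    exact h1 u v (by simpa using huv)
  let f : Mot G p →ₗ[ℝ] Mot ((fillG G F).induce (W : Set V)) (fun x => p x) :=
    (res W).restrict hmaps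
  have hinj : Function.Injective f := by
    rw [← LinearMap.ker_eq_bot, LinearMap.ker_eq_bot']
    rintro ⟨q, hq⟩ h0
    have hq0 : ∀ v ∈ W, q v = 0 := by
      intro v hv
      have := congrArg (fun g : Mot ((fillG G F).induce (W : Set V)) (fun x => p x) =>
        (g : ((W : Set V) : Type) → Fin 3 → ℝ) ⟨v, mem_coe.2 hv⟩) h0
      exact this
    apply Subtype.ext
    funext v
    show q v = 0
    obtain ⟨C, hC, hv⟩ := hcov v
    obtain ⟨A, b, hA, hb⟩ := hF C hC q (fun x _ y _ hxy => (mem_mot G p q).1 hq x y hxy)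
    obtain ⟨e1, e2⟩ := triv_unique hg (S := C ∩ W) (h3 C hC) hA
      (A' := 0) (b := b) (b' := 0) (by simp) (by
        intro x hx
        rw [mem_inter] at hx
        rw [← hb x (mem_coe.2 hx.1), hq0 x hx.2]
        simp)
    rw [hb v (mem_coe.2 hv), e1, e2]
    simp
  have hsurj : Function.Surjective f := by
    rintro ⟨q', hq'⟩
    obtain ⟨q0, hq0⟩ := res_surj W q'
    have hq0' : ∀ u ∈ W, ∀ v ∈ W, (fillG G F).Adj u v → (p u - p v) ⬝ᵥ (q0 u - q0 v) = 0 := by
      intro u hu v hv huv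
      have h1 := (mem_mot _ _ _).1 hq' ⟨u, mem_coe.2 hu⟩ ⟨v, mem_coe.2 hv⟩ (by simpa using huv)
      rw [← hq0] at h1
      exact h1
    have hB : ∀ C, C ∈ F → ∃ (A : Matrix (Fin 3) (Fin 3) ℝ) (b : Fin 3 → ℝ), Aᵀ = -A ∧
        ∀ v ∈ C ∩ W, q0 v = A *ᵥ p v + b := by
      intro C hC
      obtain ⟨A, b, hA, hb⟩ := rigid_complete hg (fillG G F) (C ∩ W) (by
        intro u hu v hv huv
        exact Or.inr ⟨huv, C, hC, (mem_inter.1 hu).1, (mem_inter.1 hv).1⟩) q0 (by
        intro u hu v hv huv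
        exact hq0' u (mem_inter.1 (mem_coe.1 hu)).2 v (mem_inter.1 (mem_coe.1 hv)).2 huv)
      exact ⟨A, b, hA, fun v hv => hb v (mem_coe.2 hv)⟩
    choose! A b hA hb using hB
    choose c hcF hcv using hcov
    let q : V → Fin 3 → ℝ := fun v => if v ∈ W then q0 v else A (c v) *ᵥ p v + b (c v)
    have hqW : ∀ v ∈ W, q v = q0 v := fun v hv => if_pos hv
    have hqn : ∀ v ∉ W, q v = A (c v) *ᵥ p v + b (c v) := fun v hv => if_neg hv
    have hone : ∀ v u, v ∉ W → G.Adj v u → (p v - p u) ⬝ᵥ (q v - q u) = 0 := by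
      intro v u hv huv
      have hns : ¬ Special G F v := fun h => hv (hW v h)
      unfold Special at hns
      push Not at hns
      obtain ⟨n1, n2⟩ := hns
      obtain ⟨D, hD, huD, hvD⟩ := n2 u huv.symm
      have hDc : D = c v := by
        by_contra hne
        exact n1 D hD (c v) (hcF v) hne hvD (hcv v)
      have hu : u ∈ c v := hDc ▸ huD
      have hqu : q u = A (c v) *ᵥ p u + b (c v) := by
        by_cases huW : u ∈ W
        · rw [hqW u huW]
          exact hb _ (hcF v) u (mem_inter.2 ⟨hu, huW⟩)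
        · have hcu : c u = c v := by
            by_contra hne
            exact huW (hW u (Or.inl ⟨c u, hcF u, c v, hcF v, hne, hcv u, hu⟩))
          rw [hqn u huW, hcu]
      rw [hqn v hv, hqu, add_sub_add_right_eq_sub, ← Matrix.mulVec_sub]
      exact skew_dot_self (hA _ (hcF v)) _
    refine ⟨⟨q, ?_⟩, ?_⟩
    · rw [mem_mot]
      intro u v huv
      by_cases hu : u ∈ W
      · by_cases hv : v ∈ W
        · rw [hqW u hu, hqW v hv]
          exact hq0' u hu v hv (Or.inl huv)
        · have h1 := hone v u hv huv.symm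
          rw [← neg_sub (p v), ← neg_sub (q v), neg_dotProduct_neg]
          exact h1
      · exact hone u v hu huv
    · apply Subtype.ext
      funext x
      show q x = q' x
      rw [hqW x (mem_coe.1 x.2), ← hq0]
      rfl
  exact (LinearEquiv.ofBijective f ⟨hinj, hsurj⟩).finrank_eq.symm

open Classical in
theorem cover_red {G : SimpleGraph V} {F : Finset (Finset V)}
    (hF : ∀ p : V → Fin 3 → ℝ, Gen p → ∀ C ∈ F, RigidOn G (C : Set V) p) (hne : F.Nonempty)
    (hcov : ∀ v, ∃ C ∈ F, v ∈ C) {W : Finset V}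
    (hW : ∀ v, Special G F v → v ∈ W) (h3 : ∀ C ∈ F, 3 ≤ (C ∩ W).card) :
    genRank 3 G = genRank 3 ((fillG G F).induce (W : Set V)) + 3 * (Wᶜ).card ∧
    (GenRigid 3 G ↔ GenRigid 3 ((fillG G F).induce (W : Set V))) := by
  obtain ⟨p, hp⟩ := exists_mg V 3
  have h1 := mo_cover hp (hF p hp.toGen) hcov hW h3
  have h2 := genRank_induce hp (fillG G F) W
  have h5 := genRank_add hp G
  have h4 := card_add_card_compl W
  have hr : genRank 3 G = genRank 3 ((fillG G F).induce (W : Set V)) + 3 * (Wᶜ).card := by omega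
  refine ⟨hr, ?_⟩
  obtain ⟨C, hC⟩ := hne
  have h6 : 3 ≤ W.card := (h3 C hC).trans (card_le_card inter_subset_right)
  have h7 : Fintype.card (W : Set V) = W.card := by simp
  rw [genRigid_rank G (by omega), genRigid_rank ((fillG G F).induce (W : Set V)) (by omega), h7]
  omega

open Classical in
/-- the number of special vertices -/
theorem special_card {G : SimpleGraph V} {F : Finset (Finset V)} (hcov : ∀ v, ∃ C ∈ F, v ∈ C)
    (h2 : ∀ C ∈ F, ∀ D ∈ F, C ≠ D → (C ∩ D).card ≤ 2 ∧ (bars G (C \ D) (D \ C)).card ≤ 9) :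
    (univ.filter (Special G F)).card ≤ 11 * F.card ^ 2 := by
  have hsub : univ.filter (Special G F) ⊆ ((F ×ˢ F).filter fun e => e.1 ≠ e.2).biUnion
      fun e => (e.1 ∩ e.2) ∪ (bars G (e.1 \ e.2) (e.2 \ e.1)).image Prod.snd := by
    intro v hv
    rw [mem_filter] at hv
    rw [mem_biUnion]
    rcases hv.2 with ⟨C, hC, D, hD, hne, hvC, hvD⟩ | ⟨u, hu, hn⟩
    · exact ⟨(C, D), mem_filter.2 ⟨mem_product.2 ⟨hC, hD⟩, hne⟩,
        mem_union_left _ (mem_inter.2 ⟨hvC, hvD⟩)⟩
    · obtain ⟨C, hC, huC⟩ := hcov u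
      obtain ⟨D, hD, hvD⟩ := hcov v
      have huD : u ∉ D := fun h => hn D hD ⟨h, hvD⟩
      have hvC : v ∉ C := fun h => hn C hC ⟨huC, h⟩
      refine ⟨(C, D), mem_filter.2 ⟨mem_product.2 ⟨hC, hD⟩, ?_⟩, mem_union_right _ ?_⟩
      · intro h
        have h' : C = D := h
        exact huD (h' ▸ huC)
      · rw [mem_image]
        exact ⟨(u, v), mem_bars.2 ⟨mem_sdiff.2 ⟨huC, huD⟩, mem_sdiff.2 ⟨hvD, hvC⟩, hu⟩, rfl⟩
  refine (card_le_card hsub).trans (card_biUnion_le.trans ?_)
  calc ∑ e ∈ (F ×ˢ F).filter (fun e => e.1 ≠ e.2),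
        ((e.1 ∩ e.2) ∪ (bars G (e.1 \ e.2) (e.2 \ e.1)).image Prod.snd).card
      ≤ ∑ e ∈ (F ×ˢ F).filter (fun e => e.1 ≠ e.2), 11 := by
        refine sum_le_sum fun e he => ?_
        rw [mem_filter, mem_product] at he
        obtain ⟨h3, h4⟩ := h2 e.1 he.1.1 e.2 he.1.2 he.2
        have h5 := card_union_le (e.1 ∩ e.2) ((bars G (e.1 \ e.2) (e.2 \ e.1)).image Prod.snd)
        have h6 := card_image_le (s := bars G (e.1 \ e.2) (e.2 \ e.1)) (f := Prod.snd)
        omega
    _ = ((F ×ˢ F).filter (fun e => e.1 ≠ e.2)).card * 11 := by rw [sum_const, smul_eq_mul]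
    _ ≤ (F ×ˢ F).card * 11 := Nat.mul_le_mul_right _ (card_filter_le _ _)
    _ = 11 * F.card ^ 2 := by rw [card_product]; ring

open Classical in
theorem exists_W {G : SimpleGraph V} {F : Finset (Finset V)} (hcov : ∀ v, ∃ C ∈ F, v ∈ C)
    (h2 : ∀ C ∈ F, ∀ D ∈ F, C ≠ D → (C ∩ D).card ≤ 2 ∧ (bars G (C \ D) (D \ C)).card ≤ 9)
    (h3 : ∀ C ∈ F, 3 ≤ C.card) :
    ∃ W : Finset V, (∀ v, Special G F v → v ∈ W) ∧ (∀ C ∈ F, 3 ≤ (C ∩ W).card) ∧
      W.card ≤ 11 * F.card ^ 2 + 3 * F.card := by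
  have h4 : ∀ C, ∃ T : Finset V, C ∈ F → T ⊆ C ∧ T.card = 3 := by
    intro C
    by_cases hC : C ∈ F
    · obtain ⟨T, hT⟩ := exists_subset_card_eq (h3 C hC)
      exact ⟨T, fun _ => hT⟩
    · exact ⟨∅, fun h => absurd h hC⟩
  choose T hT using h4
  refine ⟨univ.filter (Special G F) ∪ F.biUnion T, ?_, ?_, ?_⟩
  · intro v hv
    exact mem_union_left _ (mem_filter.2 ⟨mem_univ _, hv⟩)
  · intro C hC
    rw [← (hT C hC).2]
    refine card_le_card ?_
    intro v hv
    exact mem_inter.2 ⟨(hT C hC).1 hv, mem_union_right _ (mem_biUnion.2 ⟨C, hC, hv⟩)⟩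
  · refine (card_union_le _ _).trans (add_le_add (special_card hcov h2) ?_)
    refine card_biUnion_le.trans ?_
    rw [mul_comm, ← smul_eq_mul]
    exact sum_le_card_nsmul _ _ _ fun C hC => (hT C hC).2.le

/-- maximal certified sets -/
def MaxCert (G : SimpleGraph V) (C : Finset V) : Prop :=
  Cert G C ∧ ∀ D, Cert G D → C ⊆ D → D = C

omit [Fintype V] in
theorem exists_max [Finite V] {G : SimpleGraph V} {A : Finset V} (hA : Cert G A) :
    ∃ C, A ⊆ C ∧ MaxCert G C := by
  classical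
  haveI := Fintype.ofFinite V
  obtain ⟨C, hC, hmax⟩ := (univ.filter (fun C : Finset V => A ⊆ C ∧ Cert G C)).exists_max_image
    (fun C => C.card) ⟨A, by simp [hA]⟩
  rw [mem_filter] at hC
  refine ⟨C, hC.2.1, hC.2.2, fun D hD hCD => ?_⟩
  have := hmax D (mem_filter.2 ⟨mem_univ _, hC.2.1.trans hCD, hD⟩)
  exact (eq_of_subset_of_card_le hCD this).symm

open Classical in
theorem max_nbrs {G : SimpleGraph V} {C : Finset V} (hC : MaxCert G C) {v : V} (hv : v ∉ C) :
    (C.filter (fun u => G.Adj v u)).card ≤ 2 := by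
  by_contra hlt
  push Not at hlt
  obtain ⟨T, hT, hc⟩ := exists_subset_card_eq (show 3 ≤ (C.filter (fun u => G.Adj v u)).card from hlt)
  have h1 := hC.2 _ (Cert.add C T v hC.1 (hT.trans (filter_subset _ _)) hc
    (fun t ht => (mem_filter.1 (hT ht)).2)) (subset_insert _ _)
  exact hv (h1 ▸ mem_insert_self v C)

open Classical in
theorem max_pair {G : SimpleGraph V} {C D : Finset V} (hC : MaxCert G C) (hD : MaxCert G D)
    (hne : C ≠ D) : (C ∩ D).card ≤ 2 ∧ (bars G (C \ D) (D \ C)).card ≤ 9 := by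
  have h1 : ∃ U : Finset V, C ∩ D ⊆ U ∧ U ⊆ C ∪ D ∧ U.card ≤ 2 ∧
      (bars G (C \ U) (D \ U)).card < (4 - U.card).choose 2 := by
    by_contra hcon
    push Not at hcon
    have h2 := Cert.merge C D hC.1 hD.1 hcon
    exact hne ((hC.2 _ h2 subset_union_left).symm.trans (hD.2 _ h2 subset_union_right))
  obtain ⟨U, hU1, hU2, hU3, hU4⟩ := h1
  refine ⟨(card_le_card hU1).trans hU3, ?_⟩
  have h6 : (bars G (C \ U) (D \ U)).card ≤ 5 := by
    have : (4 - U.card).choose 2 ≤ 6 := by
      interval_cases U.card <;> decide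
    omega
  have hsub : bars G (C \ D) (D \ C) ⊆ bars G (C \ U) (D \ U) ∪
      (U \ (C ∩ D)).biUnion fun u => (if u ∈ C then (D.filter fun w => G.Adj u w).image
        (fun w => (u, w)) else (C.filter fun w => G.Adj u w).image (fun w => (w, u))) := by
    rintro ⟨s, t⟩ h
    rw [mem_bars, mem_sdiff, mem_sdiff] at h
    obtain ⟨⟨hs1, hs2⟩, ⟨ht1, ht2⟩, hst⟩ := h
    rw [mem_union]
    by_cases hsU : s ∈ U
    · right
      rw [mem_biUnion]
      refine ⟨s, mem_sdiff.2 ⟨hsU, fun h => hs2 (mem_inter.1 h).2⟩, ?_⟩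
      rw [if_pos hs1, mem_image]
      exact ⟨t, mem_filter.2 ⟨ht1, hst⟩, rfl⟩
    by_cases htU : t ∈ U
    · right
      rw [mem_biUnion]
      refine ⟨t, mem_sdiff.2 ⟨htU, fun h => ht2 (mem_inter.1 h).1⟩, ?_⟩
      rw [if_neg ht2, mem_image]
      exact ⟨s, mem_filter.2 ⟨hs1, hst.symm⟩, rfl⟩
    · left
      exact mem_bars.2 ⟨mem_sdiff.2 ⟨hs1, hsU⟩, mem_sdiff.2 ⟨ht1, htU⟩, hst⟩
  have h7 : ((U \ (C ∩ D)).biUnion fun u => (if u ∈ C then (D.filter fun w => G.Adj u w).image
      (fun w => (u, w)) else (C.filter fun w => G.Adj u w).image (fun w => (w, u)))).card ≤ 4 := by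
    refine card_biUnion_le.trans ?_
    calc ∑ u ∈ U \ (C ∩ D), (if u ∈ C then (D.filter fun w => G.Adj u w).image
          (fun w => (u, w)) else (C.filter fun w => G.Adj u w).image (fun w => (w, u))).card
        ≤ ∑ u ∈ U \ (C ∩ D), 2 := by
          refine sum_le_sum fun u hu => ?_
          rw [mem_sdiff, mem_inter] at hu
          by_cases huC : u ∈ C
          · rw [if_pos huC]
            exact card_image_le.trans (max_nbrs hD fun h => hu.2 ⟨huC, h⟩)
          · rw [if_neg huC]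
            exact card_image_le.trans (max_nbrs hC huC)
      _ = (U \ (C ∩ D)).card * 2 := by rw [sum_const, smul_eq_mul]
      _ ≤ 4 := by
          have := card_le_card (sdiff_subset : U \ (C ∩ D) ⊆ U)
          omega
  have h8 := card_le_card hsub
  have h9 := card_union_le (bars G (C \ U) (D \ U)) ((U \ (C ∩ D)).biUnion fun u =>
    (if u ∈ C then (D.filter fun w => G.Adj u w).image
      (fun w => (u, w)) else (C.filter fun w => G.Adj u w).image (fun w => (w, u))))
  omega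

open Classical in
/-- large certified sets through each vertex -/
theorem exists_big {G : SimpleGraph V} [DecidableRel G.Adj] {δ m M : ℕ}
    (hδ : ∀ v, δ ≤ G.degree v) (hm : m ≤ δ) (hmδ : 8 * Fintype.card V ≤ m * δ)
    (hM : 2 * m ^ 4 * (M + 12) ≤ δ) (hm0 : 0 < m) (v : V) :
    ∃ C, MaxCert G C ∧ v ∈ C ∧ M ≤ C.card := by
  obtain ⟨Z, hZ4, hZv, hZc⟩ := exists_common G δ 0 4 m (by norm_num)
    (by
      rw [Nat.le_zero, card_eq_zero, filter_eq_empty_iff]
      intro w _
      exact not_lt.2 (hδ w)) (by omega) (by omega) v (hδ v)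
  set Y := univ.filter (fun y => ∀ z ∈ Z, G.Adj z y) with hY
  have hYc : M + 12 ≤ Y.card := by
    by_contra hlt
    push Not at hlt
    have h1 : δ < 2 * m ^ 4 * (M + 12) := by
      refine lt_of_le_of_lt hZc ?_
      have : (0 : ℕ) < 2 * m ^ 4 := by positivity
      exact Nat.mul_lt_mul_of_pos_left hlt this
    omega
  have hC := Cert.bip (G := G) Z Y hZ4 (by omega) (fun z hz y hy => (mem_filter.1 hy).2 z hz)
  obtain ⟨C, hAC, hC'⟩ := exists_max hC
  refine ⟨C, hC', hAC (mem_union_right _ (mem_filter.2 ⟨mem_univ _, hZv⟩)), ?_⟩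
  have h1 := card_le_card hAC
  have h2 := card_le_card (subset_union_right : Y ⊆ Z ∪ Y)
  omega

end Pool.Agent.Q140.Rig
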