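import Pool.Agent.Q140.Rig.Cert

/-!
# Graphs of linear minimum degree
-/

set_option autoImplicit false

namespace Pool.Agent.Q140.Rig

open Matrix Finset Pool.Agent.H789R5 Pool.Agent.H283R2.DR Pool.Agent.TH912.Rig

variable {V : Type}

open Classical in
/-- sets with small intersections -/
theorem sum_card_le (S : Finset (Finset V))
    (h2 : ∀ C ∈ S, ∀ D ∈ S, C ≠ D → (C ∩ D).card ≤ 2) :
    ∑ C ∈ S, C.card ≤ (S.biUnion id).card + 2 * S.card ^ 2 := by
  induction S using Finset.induction_on with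
  | empty => simp
  | insert C S hC ih =>
    have ih' := ih (fun A hA D hD => h2 A (mem_insert_of_mem hA) D (mem_insert_of_mem hD))
    rw [sum_insert hC, biUnion_insert, card_insert_of_notMem hC]
    have h3 := card_union_add_card_inter (id C) (S.biUnion id)
    have h4 : ((id C) ∩ S.biUnion id).card ≤ 2 * S.card := by
      have h5 : (id C) ∩ S.biUnion id ⊆ S.biUnion fun D => C ∩ D := by
        intro v hv
        rw [mem_inter, mem_biUnion] at hv
        obtain ⟨h6, D, hD, h7⟩ := hv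
        exact mem_biUnion.2 ⟨D, hD, mem_inter.2 ⟨h6, h7⟩⟩
      refine (card_le_card h5).trans (card_biUnion_le.trans ?_)
      rw [mul_comm, ← smul_eq_mul]
      refine sum_le_card_nsmul _ _ _ fun D hD => ?_
      exact h2 C (mem_insert_self _ _) D (mem_insert_of_mem hD) (fun h => hC (h ▸ hD))
    have h8 : (id C).card = C.card := rfl
    nlinarith

variable [Fintype V]

open Classical in
theorem big_card {G : SimpleGraph V} [DecidableRel G.Adj] {δ : ℝ} (hδ0 : 0 < δ)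
    {M : ℕ} (hM : 8 / δ ≤ M) (hδ : ∀ v, δ * (Fintype.card V : ℝ) ≤ G.degree v)
    {C : Finset V} (hMC : M ≤ C.card)
    (hC : ∀ v ∉ C, (C.filter (fun u => G.Adj v u)).card ≤ 2) :
    3 / 4 * δ * (Fintype.card V : ℝ) ≤ C.card := by
  have h1 := sum_degree_le hC
  set n : ℝ := (Fintype.card V : ℝ) with hn
  have hn0 : 0 ≤ n := Nat.cast_nonneg _
  have h2 : (C.card : ℝ) * (δ * n) ≤ (C.card : ℝ) * C.card + 2 * n := by
    calc (C.card : ℝ) * (δ * n) = ∑ v ∈ C, δ * n := by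
          rw [sum_const, nsmul_eq_mul]
      _ ≤ ∑ v ∈ C, (G.degree v : ℝ) := sum_le_sum fun v _ => hδ v
      _ = ((∑ v ∈ C, G.degree v : ℕ) : ℝ) := by push_cast; rfl
      _ ≤ ((C.card * C.card + 2 * Fintype.card V : ℕ) : ℝ) := by exact_mod_cast h1
      _ = _ := by push_cast; rfl
  have h3 : 8 / δ ≤ (C.card : ℝ) := hM.trans (by exact_mod_cast hMC)
  have h4 : 8 ≤ (C.card : ℝ) * δ := by rwa [div_le_iff₀ hδ0] at h3
  have hc0 : 0 < (C.card : ℝ) := lt_of_lt_of_le (by positivity) h3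
  have h5 : 2 * n ≤ (C.card : ℝ) * (1 / 4 * δ * n) := by nlinarith
  have h6 : (C.card : ℝ) * (3 / 4 * δ * n) ≤ (C.card : ℝ) * C.card := by nlinarith
  exact le_of_mul_le_mul_left h6 hc0

open Classical in
/-- **Graphs of linear minimum degree are covered by few certified sets.** -/
theorem dense_cover (δ : ℝ) (hδ0 : 0 < δ) : ∃ n₀ M : ℕ, ∀ (V : Type) [Fintype V]
    (G : SimpleGraph V) [DecidableRel G.Adj], n₀ ≤ Fintype.card V →
    (∀ v, δ * (Fintype.card V : ℝ) ≤ G.degree v) →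
    ∀ F : Finset (Finset V), (∀ C, C ∈ F ↔ MaxCert G C ∧ M ≤ C.card) →
      F.Nonempty ∧ (F.card : ℝ) ≤ 2 / δ ∧ (∀ v, ∃ C ∈ F, v ∈ C) ∧
      (∀ C ∈ F, 3 ≤ C.card ∧ 3 / 4 * δ * (Fintype.card V : ℝ) ≤ C.card) ∧
      ∀ C ∈ F, ∀ D ∈ F, C ≠ D → (C ∩ D).card ≤ 2 ∧ (bars G (C \ D) (D \ C)).card ≤ 9 := by
  obtain ⟨M, hM⟩ := exists_nat_ge (max (8 / δ) 3)
  obtain ⟨m, hm⟩ := exists_nat_ge (8 / δ)
  set j : ℕ := ⌊2 / δ⌋₊ + 1 with hj
  obtain ⟨N, hN⟩ := exists_nat_ge ((m + 2 * m ^ 4 * (M + 12) : ℕ) / δ)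
  refine ⟨max (max N (4 * j ^ 2 + 1)) 1, M, ?_⟩
  intro V _ G _ hn hδ F hF
  have hn1 : N ≤ Fintype.card V := (le_max_left _ _).trans ((le_max_left _ _).trans hn)
  have hn2 : 4 * j ^ 2 + 1 ≤ Fintype.card V := (le_max_right _ _).trans ((le_max_left _ _).trans hn)
  have hn3 : 1 ≤ Fintype.card V := (le_max_right _ _).trans hn
  have hM8 : 8 / δ ≤ (M : ℝ) := (le_max_left _ _).trans hM
  have hM3 : 3 ≤ M := by
    have : (3 : ℝ) ≤ M := (le_max_right _ _).trans hM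
    exact_mod_cast this
  have hm0 : 0 < m := by
    have : (0 : ℝ) < m := lt_of_lt_of_le (by positivity) hm
    exact_mod_cast this
  set n : ℝ := (Fintype.card V : ℝ) with hnn
  set d : ℕ := ⌈δ * n⌉₊ with hd
  have hdeg : ∀ v, d ≤ G.degree v := by
    intro v
    rw [hd, Nat.ceil_le]
    exact hδ v
  have hdr : δ * n ≤ d := Nat.le_ceil _
  have hbig : ((m + 2 * m ^ 4 * (M + 12) : ℕ) : ℝ) ≤ d := by
    have h1 : ((m + 2 * m ^ 4 * (M + 12) : ℕ) : ℝ) / δ ≤ n := hN.trans (by rw [hnn]; exact_mod_cast hn1)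
    rw [div_le_iff₀ hδ0] at h1
    linarith
  have hbig' : m + 2 * m ^ 4 * (M + 12) ≤ d := by exact_mod_cast hbig
  have hmd : 8 * Fintype.card V ≤ m * d := by
    have h1 : 8 ≤ m * δ := by rwa [div_le_iff₀ hδ0] at hm
    have h2 : (8 : ℝ) * n ≤ m * d := by
      have hn0 : 0 ≤ n := Nat.cast_nonneg _
      calc (8 : ℝ) * n ≤ m * δ * n := mul_le_mul_of_nonneg_right h1 hn0
        _ = m * (δ * n) := by ring
        _ ≤ m * d := mul_le_mul_of_nonneg_left hdr (Nat.cast_nonneg _)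
    rw [hnn] at h2
    exact_mod_cast h2
  have hcov : ∀ v, ∃ C ∈ F, v ∈ C := by
    intro v
    obtain ⟨C, hC, hv, hMC⟩ := exists_big (M := M) hdeg (by omega) hmd (by omega) hm0 v
    exact ⟨C, (hF C).2 ⟨hC, hMC⟩, hv⟩
  have hsize : ∀ C ∈ F, 3 / 4 * δ * n ≤ C.card := by
    intro C hC
    rw [hF] at hC
    exact big_card hδ0 hM8 hδ hC.2 (fun v hv => by convert max_nbrs hC.1 hv)
  have hpair : ∀ C ∈ F, ∀ D ∈ F, C ≠ D → (C ∩ D).card ≤ 2 ∧
      (bars G (C \ D) (D \ C)).card ≤ 9 := by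
    intro C hC D hD hne
    rw [hF] at hC hD
    exact max_pair hC.1 hD.1 hne
  refine ⟨?_, ?_, hcov, ?_, hpair⟩
  · obtain ⟨v⟩ := Fintype.card_pos_iff.1 hn3
    obtain ⟨C, hC, -⟩ := hcov v
    exact ⟨C, hC⟩
  · by_contra hlt
    push Not at hlt
    have h1 : j ≤ F.card := by
      rw [hj, Nat.succ_le_iff]
      exact (Nat.floor_lt (by positivity)).2 hlt
    obtain ⟨S, hS, hSc⟩ := exists_subset_card_eq h1
    have h2 := sum_card_le S (fun C hC D hD hne => (hpair C (hS hC) D (hS hD) hne).1)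
    have h3 : ((∑ C ∈ S, C.card : ℕ) : ℝ) ≤ n + 2 * (j : ℝ) ^ 2 := by
      have h4 : ∑ C ∈ S, C.card ≤ Fintype.card V + 2 * j ^ 2 := by
        rw [hSc] at h2
        have := card_le_univ (S.biUnion id)
        omega
      calc ((∑ C ∈ S, C.card : ℕ) : ℝ) ≤ ((Fintype.card V + 2 * j ^ 2 : ℕ) : ℝ) := by
            exact_mod_cast h4
        _ = _ := by push_cast; rfl
    have h5 : (j : ℝ) * (3 / 4 * δ * n) ≤ ((∑ C ∈ S, C.card : ℕ) : ℝ) := by
      push_cast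
      calc (j : ℝ) * (3 / 4 * δ * n) = ∑ C ∈ S, 3 / 4 * δ * n := by
            rw [sum_const, nsmul_eq_mul, hSc]
        _ ≤ ∑ C ∈ S, (C.card : ℝ) := sum_le_sum fun C hC => hsize C (hS hC)
    have h6 : 2 / δ < (j : ℝ) := by
      rw [hj]
      push_cast
      exact Nat.lt_floor_add_one _
    have h7 : 2 < (j : ℝ) * δ := by rwa [div_lt_iff₀ hδ0] at h6
    have h8 : (4 * (j : ℝ) ^ 2 + 1) ≤ n := by rw [hnn]; exact_mod_cast hn2
    nlinarith
  · intro C hC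
    exact ⟨hM3.trans ((hF C).1 hC).2, hsize C hC⟩

end Pool.Agent.Q140.Rig
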