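import Pool.Agent.TH349.Rig.Cograph
import Pool.Agent.TH912.Rig.Base

/-!
# Generic rank of induced subgraphs, and infinitesimal rigidity from the count of motions
-/

set_option autoImplicit false

namespace Pool.Agent.Q140.Rig

open Matrix Finset Pool.Agent.H789R5 Pool.Agent.H283R2.DR Pool.Agent.TH349.Rig

variable {V : Type} [Fintype V] {p : V → Fin 3 → ℝ}

omit [Fintype V] in
/-- motions that are arbitrary outside `U` -/
theorem mem_mot_ins {G : SimpleGraph V} {U : Finset V} {q : V → Fin 3 → ℝ} :
    q ∈ Mot (ins G U) p ↔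
      (fun x : (U : Set V) => q x) ∈ Mot (G.induce (U : Set V)) (fun x => p x) := by
  rw [mem_mot, mem_mot]
  constructor
  · intro h u v huv
    exact h u v ⟨by simpa using huv, mem_coe.1 u.2, mem_coe.1 v.2⟩
  · rintro h u v ⟨huv, hu, hv⟩
    exact h ⟨u, mem_coe.2 hu⟩ ⟨v, mem_coe.2 hv⟩ (by simpa using huv)

/-- restriction of vector fields -/
noncomputable def res (U : Finset V) : (V → Fin 3 → ℝ) →ₗ[ℝ] (((U : Set V) : Type) → Fin 3 → ℝ) :=
  LinearMap.funLeft ℝ (Fin 3 → ℝ) (fun x : (U : Set V) => (x : V))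

omit [Fintype V] in
theorem res_apply (U : Finset V) (q : V → Fin 3 → ℝ) (x : (U : Set V)) : res U q x = q x := rfl

omit [Fintype V] in
open Classical in
theorem res_surj (U : Finset V) : Function.Surjective (res U) := by
  intro q
  refine ⟨fun v => if h : v ∈ (U : Set V) then q ⟨v, h⟩ else 0, ?_⟩
  funext x
  rw [res_apply]
  simp

open Classical in
theorem finrank_ker_res (U : Finset V) :
    Module.finrank ℝ (LinearMap.ker (res U)) = 3 * (Uᶜ).card := by
  have h1 := LinearMap.finrank_range_add_finrank_ker (res U)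
  rw [LinearMap.range_eq_top.2 (res_surj U), finrank_top] at h1
  have h2 : Module.finrank ℝ (V → Fin 3 → ℝ) = 3 * Fintype.card V := finrank_all
  have h3 : Module.finrank ℝ (((U : Set V) : Type) → Fin 3 → ℝ) = 3 * Fintype.card (U : Set V) :=
    finrank_all
  rw [h2, h3] at h1
  have h4 : Fintype.card (U : Set V) = U.card := by simp
  have h5 := card_add_card_compl U
  omega

open Classical in
theorem mo_ins (G : SimpleGraph V) (U : Finset V) (p : V → Fin 3 → ℝ) :
    mo (ins G U) p = mo (G.induce (U : Set V)) (fun x => p x) + 3 * (Uᶜ).card := by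
  have hc : Mot (ins G U) p = (Mot (G.induce (U : Set V)) (fun x => p x)).comap (res U) := by
    ext q
    rw [Submodule.mem_comap]
    exact mem_mot_ins
  have hker : LinearMap.ker (res U) ≤ Mot (ins G U) p := by
    rw [hc]
    intro q hq
    rw [Submodule.mem_comap, LinearMap.mem_ker.1 hq]
    exact Submodule.zero_mem _
  let f := (res U).domRestrict (Mot (ins G U) p)
  have h1 := LinearMap.finrank_range_add_finrank_ker f
  have h2 : LinearMap.range f = Mot (G.induce (U : Set V)) (fun x => p x) := by
    ext q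
    constructor
    · rintro ⟨q', rfl⟩
      exact mem_mot_ins.1 q'.2
    · intro hq
      obtain ⟨q', hq'⟩ := res_surj U q
      refine ⟨⟨q', ?_⟩, hq'⟩
      rw [hc, Submodule.mem_comap, hq']
      exact hq
  have h3 : Module.finrank ℝ (LinearMap.ker f) = 3 * (Uᶜ).card := by
    rw [← finrank_ker_res U, ← Submodule.finrank_map_subtype_eq (Mot (ins G U) p)
      (LinearMap.ker f)]
    have h4 : (LinearMap.ker f).map (Mot (ins G U) p).subtype = LinearMap.ker (res U) := by
      ext q
      constructor
      · rintro ⟨q', hq', rfl⟩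
        exact hq'
      · intro hq
        exact ⟨⟨q, hker hq⟩, hq, rfl⟩
    rw [h4]
  rw [h2, h3] at h1
  exact h1.symm

open Classical in
/-- the generic rank of an induced subgraph at a most generic placement -/
theorem genRank_induce (hp : MG p) (G : SimpleGraph V) (U : Finset V) :
    genRank 3 (G.induce (U : Set V)) + mo (G.induce (U : Set V)) (fun x => p x) = 3 * U.card := by
  have h4 : Fintype.card (U : Set V) = U.card := by simp
  have h0 := rank_add_mo (G.induce (U : Set V)) (fun x : (U : Set V) => p x)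
  rw [h4] at h0
  rw [← h0]
  congr 1
  apply IsGreatest.csSup_eq
  refine ⟨⟨_, rfl⟩, ?_⟩
  rintro _ ⟨p', rfl⟩
  have h1 := rank_add_mo (G.induce (U : Set V)) p'
  rw [h4] at h1
  obtain ⟨p'', hp''⟩ := res_surj U p'
  have h5 := mo_ins G U p
  have h6 := mo_ins G U p''
  have h7 : (fun x : (U : Set V) => p'' x) = p' := by
    rw [← hp'']
    rfl
  rw [h7] at h6
  have h8 := hp.min (ins G U) p''
  show (rigidityMatrix (G.induce (U : Set V)) p').rank ≤ _
  omega

open Classical in
/-- `ri` implies infinitesimal rigidity -/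
theorem rigidOn_of_ri (hp : MG p) {G : SimpleGraph V} {U : Finset V} (hU : 3 ≤ U.card)
    (h : ri p G U) : RigidOn G (U : Set V) p := by
  rw [← hp.toGen.genRigid_induce_iff]
  have h4 : Fintype.card (U : Set V) = U.card := by simp
  obtain ⟨p', hp'⟩ := exists_mg (U : Set V) 3
  rw [genRigid_iff hp' (by rw [h4]; exact hU)]
  have h1 := mo_ins G U p
  have h5 := card_add_card_compl U
  unfold ri at h
  have h2 := hp'.min (G.induce (U : Set V)) (fun x => p x)
  omega

omit [Fintype V] in
/-- vertices outside determined by three neighbours -/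
theorem det3 (hp : Gen p) {v : V} {T : Finset V} (hv : v ∉ T) (hT : T.card = 3)
    {r : Fin 3 → ℝ} (h : ∀ t ∈ T, (p v - p t) ⬝ᵥ r = 0) : r = 0 := by
  classical
  obtain ⟨x, y, z, hxy, hxz, hyz, rfl⟩ := card_eq_three.1 hT
  simp only [mem_insert, mem_singleton, not_or] at hv
  have e : ∀ t ∈ ({x, y, z} : Finset V), (p t - p v) ⬝ᵥ r = 0 := by
    intro t ht
    rw [← neg_sub, neg_dotProduct, h t ht, neg_zero]
  exact Pool.Agent.TH912.Rig.orth_zero hp hv.1 hv.2.1 hv.2.2 hxy hxz hyz
    (e x (by simp)) (e y (by simp)) (e z (by simp))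

omit [Fintype V] in
/-- the position of a vertex with three neighbours can be chosen -/
theorem solve3 (hp : Gen p) {v : V} {T : Finset V} (hv : v ∉ T) (hT : T.card = 3)
    (c : V → ℝ) : ∃ x : Fin 3 → ℝ, ∀ t ∈ T, (p v - p t) ⬝ᵥ x = c t := by
  classical
  let f : (Fin 3 → ℝ) →ₗ[ℝ] (T → ℝ) :=
    { toFun := fun x t => (p v - p t) ⬝ᵥ x
      map_add' := fun x y => by funext t; exact dotProduct_add _ _ _
      map_smul' := fun a x => by funext t; simp [dotProduct_smul] }
  have hinj : Function.Injective f := by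
    rw [← LinearMap.ker_eq_bot, LinearMap.ker_eq_bot']
    intro r hr
    exact det3 hp hv hT fun t ht => congrFun hr ⟨t, ht⟩
  have hsurj : Function.Surjective f := by
    refine (LinearMap.injective_iff_surjective_of_finrank_eq_finrank ?_).1 hinj
    rw [Module.finrank_fin_fun, Module.finrank_fintype_fun_eq_card, Fintype.card_coe, hT]
  obtain ⟨x, hx⟩ := hsurj (fun t => c t)
  exact ⟨x, fun t ht => congrFun hx ⟨t, ht⟩⟩

end Pool.Agent.Q140.Rig
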