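import Pool.Agent.Q140.Rig.Mod

/-!
# Existence of kernels, necessary conditions, blow-ups
-/

set_option autoImplicit false

namespace Pool.Agent.Q140.Rig

open Matrix Finset Pool.Agent.H789R5 Pool.Agent.H283R2.DR Pool.Agent.TH349.Rig

variable {V κ : Type} [Fintype V]

theorem genRigid_rank {W : Type} [Fintype W] (H : SimpleGraph W) (h : 3 ≤ Fintype.card W) :
    GenRigid 3 H ↔ genRank 3 H = 3 * Fintype.card W - 6 := by
  obtain ⟨p, hp⟩ := exists_mg W 3
  rw [genRigid_iff hp h]
  have h1 := genRank_add hp H
  have h6 := six_le hp h H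
  constructor
  · intro h2
    omega
  · intro h2
    omega

open Classical in
theorem rigid_red {G : SimpleGraph V} {π : V → κ} (hM : Modules G π) {W : Finset V}
    (hW : ∀ i, Ok G π W i) : GenRigid 3 G ↔ GenRigid 3 (G.induce (W : Set V)) := by
  by_cases hWu : ∀ v, v ∈ W
  · -- nothing is removed
    obtain ⟨p, hp⟩ := exists_mg V 3
    rw [hp.toGen.genRigid_iff, hp.toGen.genRigid_induce_iff]
    have : (W : Set V) = Set.univ := by
      ext v
      simp [hWu v]
    rw [this]
  · push Not at hWu
    obtain ⟨v, hv⟩ := hWu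
    have h6 : 6 ≤ W.card := by
      rcases hW (π v) with h | ⟨h, -⟩
      · exact absurd (h (mem_cls.2 rfl)) hv
      · exact h.trans (card_le_card inter_subset_right)
    have h1 : Fintype.card (W : Set V) = W.card := by simp
    have h2 := card_add_card_compl W
    have h3 := genRank_red hM hW
    rw [genRigid_rank G (by omega), genRigid_rank (G.induce (W : Set V)) (by omega), h1]
    omega

open Classical in
/-- the vertices of a set of edges -/
theorem ends_card (F : Finset (Sym2 V)) :
    (F.biUnion fun e => univ.filter fun v => v ∈ e).card ≤ 2 * F.card := by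
  refine card_biUnion_le.trans ?_
  rw [mul_comm, ← smul_eq_mul]
  refine sum_le_card_nsmul _ _ _ ?_
  intro e _
  induction e using Sym2.ind with
  | _ x y =>
    have : (univ.filter fun v => v ∈ s(x, y)) ⊆ {x, y} := by
      intro v hv
      simpa using hv
    exact (card_le_card this).trans card_le_two

open Classical in
theorem exists_part (G : SimpleGraph V) (π : V → κ) (i : κ)
    (h : 6 < (cls π i).card → 3 ≤ (outN G π i).card) :
    ∃ S : Finset V, S ⊆ cls π i ∧ S.card ≤ 6 ∧ (cls π i ⊆ S ∨ (6 ≤ S.card ∧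
      (4 ≤ (outN G π i).card ∨ ((outN G π i).card = 3 ∧
      (3 ≤ (E2 G S).card ∨ ∀ u v, π u = i → π v = i → G.Adj u v → u ∈ S))))) := by
  by_cases h6 : (cls π i).card ≤ 6
  · exact ⟨cls π i, Subset.refl _, h6, Or.inl (Subset.refl _)⟩
  push Not at h6
  have h3 := h h6
  -- three inner edges, or all of them
  obtain ⟨F, hF, hFc⟩ := exists_subset_card_eq (s := E2 G (cls π i))
    (n := min 3 (E2 G (cls π i)).card) (min_le_right _ _)
  set S0 := F.biUnion fun e => univ.filter fun v => v ∈ e with hS0
  have hS0c : S0.card ≤ 6 := by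
    refine (ends_card F).trans ?_
    rw [hFc]
    omega
  have hS0s : S0 ⊆ cls π i := by
    intro v hv
    rw [hS0, mem_biUnion] at hv
    obtain ⟨e, he, hve⟩ := hv
    have he' := hF he
    induction e using Sym2.ind with
    | _ x y =>
      rw [mem_E2] at he'
      simp only [mem_filter, mem_univ, true_and, Sym2.mem_iff] at hve
      rcases hve with rfl | rfl
      · exact he'.1
      · exact he'.2.1
  obtain ⟨S, hS1, hS2, hS3⟩ := exists_subsuperset_card_eq hS0s hS0c h6.le
  have hFS : F ⊆ E2 G S := by
    intro e he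
    have he' := hF he
    have hends : ∀ v ∈ e, v ∈ S := by
      intro v hv
      refine hS1 ?_
      rw [hS0, mem_biUnion]
      exact ⟨e, he, by simpa using hv⟩
    induction e using Sym2.ind with
    | _ x y =>
      rw [mem_E2] at he' ⊢
      exact ⟨hends x (by simp), hends y (by simp), he'.2.2⟩
  refine ⟨S, hS2, hS3.le, Or.inr ⟨hS3.ge, ?_⟩⟩
  by_cases h4 : 4 ≤ (outN G π i).card
  · exact Or.inl h4
  refine Or.inr ⟨by omega, ?_⟩
  by_cases he : 3 ≤ (E2 G (cls π i)).card
  · left
    rw [min_eq_left he] at hFc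
    rw [← hFc]
    exact card_le_card hFS
  · right
    rw [min_eq_right (by omega)] at hFc
    have hFe : F = E2 G (cls π i) := eq_of_subset_of_card_le hF hFc.ge
    intro u v hu hv huv
    have h1 : s(u, v) ∈ F := by
      rw [hFe, mem_E2]
      exact ⟨mem_cls.2 hu, mem_cls.2 hv, huv⟩
    exact (mem_E2.1 (hFS h1)).1

open Classical in
/-- **Kernels exist.** -/
theorem exists_kernel [Fintype κ] (G : SimpleGraph V) (π : V → κ)
    (h : ∀ i, 6 < (cls π i).card → 3 ≤ (outN G π i).card) :
    ∃ W : Finset V, (∀ i, (cls π i ∩ W).card ≤ 6) ∧ W.card ≤ 6 * Fintype.card κ ∧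
      ∀ i, Ok G π W i := by
  choose S hS1 hS2 hS3 using fun i => exists_part G π i (h i)
  let W : Finset V := univ.biUnion S
  have hint : ∀ i, cls π i ∩ W = S i := by
    intro i
    ext v
    rw [mem_inter, mem_biUnion]
    constructor
    · rintro ⟨h1, j, -, hj⟩
      have h2 := hS1 j hj
      rw [mem_cls] at h1 h2
      rw [← h1, h2]
      exact hj
    · intro hv
      exact ⟨hS1 i hv, i, mem_univ _, hv⟩
  refine ⟨W, fun i => by rw [hint i]; exact hS2 i, ?_, ?_⟩
  · refine card_biUnion_le.trans ?_
    rw [mul_comm, ← smul_eq_mul, ← card_univ (α := κ)]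
    exact sum_le_card_nsmul _ _ _ fun i _ => hS2 i
  · intro i
    unfold Ok
    rw [hint i]
    rcases hS3 i with h1 | ⟨h1, h2⟩
    · left
      intro v hv
      rw [mem_biUnion]
      exact ⟨i, mem_univ _, h1 hv⟩
    · right
      refine ⟨h1, ?_⟩
      rcases h2 with h2 | ⟨h2, h3 | h3⟩
      · exact Or.inl h2
      · exact Or.inr ⟨h2, Or.inl h3⟩
      · refine Or.inr ⟨h2, Or.inr ?_⟩
        intro u v hu hv huv
        rw [mem_biUnion]
        exact ⟨i, mem_univ _, h3 u v hu hv huv⟩

open Classical in
/-- a class with at most two outside neighbours and a further vertex -/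
theorem not_rigid {G : SimpleGraph V} {π : V → κ} (h4 : 4 ≤ Fintype.card V) {v w : V}
    (hw : π w ≠ π v) (hw' : w ∉ outN G π (π v)) (h2 : (outN G π (π v)).card ≤ 2) :
    ¬ GenRigid 3 G := by
  intro hG
  have h1 := (threeConnected_of_rigid h4 hG).2 (outN G π (π v)) h2
  have hv' : v ∈ ((outN G π (π v) : Finset V) : Set V)ᶜ := by
    intro h
    exact (mem_outN.1 (mem_coe.1 h)).1 rfl
  have hwc : w ∈ ((outN G π (π v) : Finset V) : Set V)ᶜ := fun h => hw' (mem_coe.1 h)
  obtain ⟨P⟩ := h1.preconnected ⟨v, hv'⟩ ⟨w, hwc⟩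
  -- the walk stays in the class
  have key : ∀ (a b : ((((outN G π (π v) : Finset V) : Set V)ᶜ : Set V) : Type)),
      (G.induce _).Walk a b → π a = π v → π b = π v := by
    intro a b Q
    induction Q with
    | nil => exact id
    | @cons x y z hxy _ ih =>
      intro hx
      refine ih ?_
      by_contra hy
      refine y.2 (mem_coe.2 (mem_outN.2 ⟨hy, x, hx, ?_⟩))
      have : G.Adj x y := by simpa using hxy
      exact this.symm
  exact hw (key _ _ P rfl)

/-- **Blow-ups.** Each vertex of a connected graph with at least two vertices is replaced by at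
least five vertices. -/
theorem blowup {G : SimpleGraph V} {π : V → κ} (hM : Modules G π)
    (h5 : ∀ v, 5 ≤ (cls π (π v)).card) (hc : G.Connected) (h2 : ∃ u v, π u ≠ π v) :
    GenRigid 3 G := by
  classical
  obtain ⟨p, hp⟩ := exists_mg V 3
  have hg := hp.toGen
  rw [hg.genRigid_iff]
  -- two adjacent classes
  have hbody : ∀ u v, G.Adj u v → π u ≠ π v →
      RigidOn G ((cls π (π u) ∪ cls π (π v) : Finset V) : Set V) p := by
    intro u v huv hne
    have hJ : Jn G (cls π (π u)) (cls π (π v)) := by
      constructor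
      · rw [disjoint_left]
        intro x hx hx'
        rw [mem_cls] at hx hx'
        exact hne (hx.symm.trans hx')
      · intro a ha b hb
        rw [mem_cls] at ha hb
        have h1 : G.Adj v a := hM u a v ha.symm (fun h => hne h.symm) huv.symm
        have h3 : G.Adj a b := hM v b a hb.symm (by rw [ha]; exact hne) h1.symm
        exact h3
    have hu := h5 u
    have hv := h5 v
    refine rigidOn_of_ri hp ?_ (join_rigid hp hJ (by omega) (by omega) ?_)
    · exact (by omega : 3 ≤ (cls π (π u)).card).trans (card_le_card subset_union_left)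
    · have : 3 * ((cls π (π u)).card + (cls π (π v)).card) ≤
          (cls π (π u)).card * (cls π (π v)).card + 6 := by
        obtain ⟨a, ha⟩ := Nat.exists_eq_add_of_le hu
        obtain ⟨b, hb⟩ := Nat.exists_eq_add_of_le hv
        rw [ha, hb]
        nlinarith
      omega
  -- every vertex has a neighbour in another class
  have hnb : ∀ v, ∃ w, G.Adj v w ∧ π v ≠ π w := by
    intro v
    obtain ⟨x, hx⟩ : ∃ x, π x ≠ π v := by
      obtain ⟨a, b, hab⟩ := h2
      by_cases h : π a = π v
      · exact ⟨b, fun h' => hab (h.trans h'.symm)⟩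
      · exact ⟨a, h⟩
    obtain ⟨P⟩ := hc.preconnected v x
    have key : ∀ a b : V, G.Walk a b → π a = π v → π b ≠ π v →
        ∃ c d, G.Adj c d ∧ π c = π v ∧ π d ≠ π v := by
      intro a b Q
      induction Q with
      | nil => exact fun h h' => absurd h h'
      | @cons x y z hxy _ ih =>
        intro h h'
        by_cases hy : π y = π v
        · exact ih hy h'
        · exact ⟨x, y, hxy, h, hy⟩
    obtain ⟨c, d, hcd, hc', hd⟩ := key v x P rfl hx
    exact ⟨d, (hM c v d hc' (by rw [hc']; exact hd) hcd.symm).symm, fun h => hd h.symm⟩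
  -- a motion
  intro q hq
  have hloc : ∀ v, ∃ (A : Matrix (Fin 3) (Fin 3) ℝ) (b : Fin 3 → ℝ), Aᵀ = -A ∧
      ∀ x ∈ cls π (π v), q x = A *ᵥ p x + b := by
    intro v
    obtain ⟨w, hvw, hne⟩ := hnb v
    obtain ⟨A, b, hA, hb⟩ := hbody v w hvw hne q
      (fun x _ y _ hxy => hq x trivial y trivial hxy)
    exact ⟨A, b, hA, fun x hx => hb x (mem_coe.2 (mem_union_left _ hx))⟩
  choose A b hA hb using hloc
  have hstep : ∀ u v, G.Adj u v → A u = A v ∧ b u = b v := by
    intro u v huv
    by_cases hne : π u = π v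
    · refine triv_unique hg (S := cls π (π u)) (by have := h5 u; omega) (hA u) (hA v) ?_
      intro x hx
      rw [← hb u x hx, ← hb v x (by rw [← hne]; exact hx)]
    · obtain ⟨A', b', hA', hb'⟩ := hbody u v huv hne q
        (fun x _ y _ hxy => hq x trivial y trivial hxy)
      have e1 := triv_unique hg (S := cls π (π u)) (by have := h5 u; omega) (hA u) hA' (b := b u)
        (b' := b') (by
          intro x hx
          rw [← hb u x hx, ← hb' x (mem_coe.2 (mem_union_left _ hx))])
      have e2 := triv_unique hg (S := cls π (π v)) (by have := h5 v; omega) (hA v) hA' (b := b v)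
        (b' := b') (by
          intro x hx
          rw [← hb v x hx, ← hb' x (mem_coe.2 (mem_union_right _ hx))])
      exact ⟨e1.1.trans e2.1.symm, e1.2.trans e2.2.symm⟩
  obtain ⟨v0⟩ := hc.nonempty
  have hall : ∀ v, A v0 = A v ∧ b v0 = b v := by
    intro v
    obtain ⟨P⟩ := hc.preconnected v0 v
    induction P with
    | nil => exact ⟨rfl, rfl⟩
    | cons h _ ih =>
      obtain ⟨e1, e2⟩ := hstep _ _ h
      exact ⟨e1.trans ih.1, e2.trans ih.2⟩
  refine ⟨A v0, b v0, hA v0, fun v _ => ?_⟩
  rw [(hall v).1, (hall v).2]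
  exact hb v v (mem_cls.2 rfl)

end Pool.Agent.Q140.Rig
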