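import Pool.Agent.Q140.Rig.Ind

/-!
# Modules and generic rigidity in `ℝ³`
-/

set_option autoImplicit false

namespace Pool.Agent.Q140.Rig

open Matrix Finset Pool.Agent.H789R5 Pool.Agent.H283R2.DR Pool.Agent.TH349.Rig

variable {V κ : Type} [Fintype V] {p : V → Fin 3 → ℝ}

open Classical in
/-- the class `i` of the partition `π` -/
noncomputable def cls (π : V → κ) (i : κ) : Finset V := univ.filter fun v => π v = i

open Classical in
/-- the vertices outside the class `i` which are adjacent to a vertex of the class `i` -/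
noncomputable def outN (G : SimpleGraph V) (π : V → κ) (i : κ) : Finset V :=
  univ.filter fun w => π w ≠ i ∧ ∃ v, π v = i ∧ G.Adj w v

/-- all classes of `π` are modules of `G`: a vertex outside a class is adjacent to all or to none of
the vertices of the class -/
def Modules (G : SimpleGraph V) (π : V → κ) : Prop :=
  ∀ u v w, π u = π v → π w ≠ π u → G.Adj w u → G.Adj w v

open Classical in
/-- the class `i` may be replaced by its intersection with `W` -/
def Ok (G : SimpleGraph V) (π : V → κ) (W : Finset V) (i : κ) : Prop :=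
  cls π i ⊆ W ∨ (6 ≤ (cls π i ∩ W).card ∧ (4 ≤ (outN G π i).card ∨ ((outN G π i).card = 3 ∧
    (3 ≤ (E2 G (cls π i ∩ W)).card ∨
      ∀ u v, π u = i → π v = i → G.Adj u v → u ∈ W))))

theorem mem_cls {π : V → κ} {i : κ} {v : V} : v ∈ cls π i ↔ π v = i := by
  simp [cls]

theorem mem_outN {G : SimpleGraph V} {π : V → κ} {i : κ} {w : V} :
    w ∈ outN G π i ↔ π w ≠ i ∧ ∃ v, π v = i ∧ G.Adj w v := by
  simp [outN]

/-- a class which meets the neighbourhood of a class is contained in it -/
theorem cls_sub_outN {G : SimpleGraph V} {π : V → κ} (hM : Modules G π) {i : κ} {w : V}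
    (hw : w ∈ outN G π i) : cls π (π w) ⊆ outN G π i := by
  intro x hx
  rw [mem_cls] at hx
  rw [mem_outN] at hw ⊢
  obtain ⟨h1, v, hv, ha⟩ := hw
  refine ⟨hx ▸ h1, v, hv, ?_⟩
  have h2 := hM w x v hx.symm (by rw [hv]; exact h1.symm) ha.symm
  exact h2.symm

theorem adj_outN {G : SimpleGraph V} {π : V → κ} (hM : Modules G π) {i : κ} {v w : V}
    (hv : π v = i) (hw : w ∈ outN G π i) : G.Adj w v := by
  obtain ⟨h1, u, hu, ha⟩ := mem_outN.1 hw
  exact hM u v w (by rw [hu, hv]) (by rw [hu]; exact h1) ha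

open Classical in
/-- the part of the neighbourhood of a class in `W` -/
theorem outN_inter {G : SimpleGraph V} {π : V → κ} (hM : Modules G π) {W : Finset V}
    (hW : ∀ i, Ok G π W i) (i : κ) {k : ℕ} (hk : k ≤ 6) (hc : k ≤ (outN G π i).card) :
    k ≤ (outN G π i ∩ W).card := by
  by_cases h : outN G π i ⊆ W
  · rw [inter_eq_left.2 h]
    exact hc
  · obtain ⟨w, hw, hwW⟩ := not_subset.1 h
    have h1 := cls_sub_outN hM hw
    rcases hW (π w) with h2 | ⟨h2, -⟩
    · exact absurd (h2 (mem_cls.2 rfl)) hwW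
    · refine hk.trans (h2.trans (card_le_card ?_))
      intro x hx
      rw [mem_inter] at hx ⊢
      exact ⟨h1 hx.1, hx.2⟩

open Classical in
/-- the neighbourhood of a class with exactly three outside neighbours is in `W` -/
theorem outN_sub {G : SimpleGraph V} {π : V → κ} (hM : Modules G π) {W : Finset V}
    (hW : ∀ i, Ok G π W i) (i : κ) (hc : (outN G π i).card = 3) :
    outN G π i ⊆ W := by
  intro w hw
  by_contra hwW
  have h1 := cls_sub_outN hM hw
  rcases hW (π w) with h2 | ⟨h2, -⟩
  · exact absurd (h2 (mem_cls.2 rfl)) hwW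
  · have h3 : (cls π (π w) ∩ W).card ≤ 3 := by
      rw [← hc]
      refine card_le_card ?_
      intro x hx
      exact h1 (mem_inter.1 hx).1
    omega

open Classical in
/-- the rigid body of a class -/
theorem body (hp : MG p) {G : SimpleGraph V} {π : V → κ} (hM : Modules G π) {W : Finset V}
    (hW : ∀ i, Ok G π W i) {i : κ} (h6 : 6 ≤ (cls π i ∩ W).card)
    (h : 4 ≤ (outN G π i).card ∨ ((outN G π i).card = 3 ∧ 3 ≤ (E2 G (cls π i ∩ W)).card)) :
    RigidOn G (((cls π i ∩ W) ∪ (outN G π i ∩ W) : Finset V) : Set V) p := by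
  have h3 : 3 ≤ (outN G π i ∩ W).card :=
    outN_inter hM hW i (by norm_num) (by omega)
  have hJ : Jn G (cls π i ∩ W) (outN G π i ∩ W) := by
    constructor
    · rw [disjoint_left]
      intro x hx hx'
      exact (mem_outN.1 (mem_inter.1 hx').1).1 (mem_cls.1 (mem_inter.1 hx).1)
    · intro a ha b hb
      exact (adj_outN hM (mem_cls.1 (mem_inter.1 ha).1) (mem_inter.1 hb).1).symm
  refine rigidOn_of_ri hp ?_ (join_rigid hp hJ (by omega) h3 ?_)
  · exact h3.trans (card_le_card subset_union_right)
  rcases h with h | ⟨h, he⟩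
  · have h4 := outN_inter hM hW i (k := 4) (by norm_num) h
    generalize (cls π i ∩ W).card = a at *
    generalize (outN G π i ∩ W).card = b at *
    have : 3 * (a + b) ≤ a * b + 6 := by
      obtain ⟨a', rfl⟩ := Nat.exists_eq_add_of_le h6
      obtain ⟨b', rfl⟩ := Nat.exists_eq_add_of_le h4
      nlinarith
    omega
  · have h5 : (outN G π i ∩ W).card = 3 := by
      rw [inter_eq_left.2 (outN_sub hM hW i h), h]
    rw [h5]
    omega

/-- vertices outside `W` have three neighbours in `W` -/
theorem three_nbrs {G : SimpleGraph V} {π : V → κ} (hM : Modules G π) {W : Finset V}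
    (hW : ∀ i, Ok G π W i) {v : V} (hv : v ∉ W) :
    ∃ T : Finset V, T.card = 3 ∧ T ⊆ W ∧ T ⊆ outN G π (π v) ∧ ∀ t ∈ T, G.Adj v t := by
  classical
  rcases hW (π v) with h | ⟨-, h⟩
  · exact absurd (h (mem_cls.2 rfl)) hv
  · have h3 : 3 ≤ (outN G π (π v) ∩ W).card :=
      outN_inter hM hW _ (by norm_num) (by omega)
    obtain ⟨T, hT, hc⟩ := exists_subset_card_eq h3
    refine ⟨T, hc, fun t ht => (mem_inter.1 (hT ht)).2, fun t ht => (mem_inter.1 (hT ht)).1, ?_⟩
    intro t ht
    exact (adj_outN hM rfl (mem_inter.1 (hT ht)).1).symm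

open Classical in
/-- the motions of `G` and of its induced subgraph on `W` correspond to each other -/
theorem mo_eq (hp : MG p) {G : SimpleGraph V} {π : V → κ} (hM : Modules G π) {W : Finset V}
    (hW : ∀ i, Ok G π W i) :
    mo (G.induce (W : Set V)) (fun x => p x) = mo G p := by
  have hg := hp.toGen
  have hmaps : ∀ q ∈ Mot G p, res W q ∈ Mot (G.induce (W : Set V)) (fun x => p x) := by
    intro q hq
    rw [mem_mot] at hq ⊢
    intro u v huv
    exact hq u v (by simpa using huv)
  let f : Mot G p →ₗ[ℝ] Mot (G.induce (W : Set V)) (fun x => p x) := (res W).restrict hmaps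
  have hinj : Function.Injective f := by
    rw [← LinearMap.ker_eq_bot, LinearMap.ker_eq_bot']
    rintro ⟨q, hq⟩ h0
    have hq0 : ∀ v ∈ W, q v = 0 := by
      intro v hv
      have := congrArg (fun g : Mot (G.induce (W : Set V)) (fun x => p x) =>
        (g : ((W : Set V) : Type) → Fin 3 → ℝ) ⟨v, mem_coe.2 hv⟩) h0
      exact this
    apply Subtype.ext
    funext v
    by_cases hv : v ∈ W
    · exact hq0 v hv
    · obtain ⟨T, hT3, hTW, -, hTa⟩ := three_nbrs hM hW hv
      show q v = 0
      refine det3 hg (fun h => hv (hTW h)) hT3 ?_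
      intro t ht
      have h1 := (mem_mot G p q).1 hq v t (hTa t ht)
      rwa [hq0 t (hTW ht), sub_zero] at h1
  have hsurj : Function.Surjective f := by
    rintro ⟨q', hq'⟩
    obtain ⟨q0, hq0⟩ := res_surj W q'
    have hq0' : ∀ u ∈ W, ∀ v ∈ W, G.Adj u v → (p u - p v) ⬝ᵥ (q0 u - q0 v) = 0 := by
      intro u hu v hv huv
      have h1 := (mem_mot _ _ _).1 hq' ⟨u, mem_coe.2 hu⟩ ⟨v, mem_coe.2 hv⟩ (by simpa using huv)
      rw [← hq0] at h1
      exact h1
    -- the bodies
    let B : κ → Finset V := fun i => (cls π i ∩ W) ∪ (outN G π i ∩ W)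
    let Hv : κ → Prop := fun i => 6 ≤ (cls π i ∩ W).card ∧ (4 ≤ (outN G π i).card ∨
      ((outN G π i).card = 3 ∧ 3 ≤ (E2 G (cls π i ∩ W)).card))
    have hB : ∀ i, Hv i → ∃ (A : Matrix (Fin 3) (Fin 3) ℝ) (b : Fin 3 → ℝ), Aᵀ = -A ∧
        ∀ v ∈ B i, q0 v = A *ᵥ p v + b := by
      intro i hi
      obtain ⟨A, b, hA, hb⟩ := body hp hM hW hi.1 hi.2 q0 (by
        intro u hu v hv huv
        rw [mem_coe, mem_union, mem_inter, mem_inter] at hu hv
        exact hq0' u (by tauto) v (by tauto) huv)
      exact ⟨A, b, hA, fun v hv => hb v (mem_coe.2 hv)⟩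
    choose! A b hA hb using hB
    have hL : ∀ v, ∃ x : Fin 3 → ℝ, v ∉ W → ¬ Hv (π v) →
        ∀ t ∈ outN G π (π v), (p v - p t) ⬝ᵥ (x - q0 t) = 0 := by
      intro v
      by_cases hv : v ∈ W
      · exact ⟨0, fun h => absurd hv h⟩
      by_cases hh : Hv (π v)
      · exact ⟨0, fun _ h => absurd hh h⟩
      rcases hW (π v) with h | ⟨h6, h⟩
      · exact absurd (h (mem_cls.2 rfl)) hv
      have h3 : (outN G π (π v)).card = 3 := by
        rcases h with h | ⟨h, -⟩
        · exact absurd ⟨h6, Or.inl h⟩ hh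
        · exact h
      obtain ⟨x, hx⟩ := solve3 hg (v := v) (T := outN G π (π v))
        (fun h => (mem_outN.1 h).1 rfl) h3 (fun t => (p v - p t) ⬝ᵥ q0 t)
      refine ⟨x, fun _ _ t ht => ?_⟩
      rw [dotProduct_sub, hx t ht, sub_self]
    choose X hX using hL
    let q : V → Fin 3 → ℝ := fun v => if v ∈ W then q0 v else
      if Hv (π v) then A (π v) *ᵥ p v + b (π v) else X v
    have hqW : ∀ v ∈ W, q v = q0 v := fun v hv => if_pos hv
    have hqH : ∀ v ∉ W, Hv (π v) → q v = A (π v) *ᵥ p v + b (π v) := by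
      intro v hv hh
      show (if v ∈ W then q0 v else _) = _
      rw [if_neg hv, if_pos hh]
    have hqL : ∀ v ∉ W, ¬ Hv (π v) → q v = X v := by
      intro v hv hh
      show (if v ∈ W then q0 v else _) = _
      rw [if_neg hv, if_neg hh]
    -- all vertices of a heavy class
    have hcl : ∀ v, Hv (π v) → q v = A (π v) *ᵥ p v + b (π v) := by
      intro v hh
      by_cases hv : v ∈ W
      · rw [hqW v hv]
        exact hb _ hh v (mem_union_left _ (mem_inter.2 ⟨mem_cls.2 rfl, hv⟩))
      · exact hqH v hv hh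
    have hskew : ∀ (i : κ), Hv i → ∀ x y : V, q x = A i *ᵥ p x + b i → q y = A i *ᵥ p y + b i →
        (p x - p y) ⬝ᵥ (q x - q y) = 0 := by
      intro i hi x y hx hy
      rw [hx, hy, add_sub_add_right_eq_sub, ← Matrix.mulVec_sub]
      exact skew_dot_self (hA i hi) _
    -- the edges with one end outside
    have hone : ∀ v u, v ∉ W → G.Adj v u → (p v - p u) ⬝ᵥ (q v - q u) = 0 := by
      intro v u hv huv
      rcases hW (π v) with h | ⟨h6, h⟩
      · exact absurd (h (mem_cls.2 rfl)) hv
      by_cases huπ : π u = π v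
      · -- the same class
        by_cases hh : Hv (π v)
        · exact hskew _ hh v u (hcl v hh) (by rw [← huπ] at hh ⊢; exact hcl u hh)
        · exfalso
          rcases h with h | ⟨h3, h | h⟩
          · exact hh ⟨h6, Or.inl h⟩
          · exact hh ⟨h6, Or.inr ⟨h3, h⟩⟩
          · exact hv (h v u rfl huπ huv)
      · have hu : u ∈ outN G π (π v) := mem_outN.2 ⟨huπ, v, rfl, huv.symm⟩
        by_cases huW : u ∈ W
        · by_cases hh : Hv (π v)
          · refine hskew _ hh v u (hcl v hh) ?_
            rw [hqW u huW]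
            exact hb _ hh u (mem_union_right _ (mem_inter.2 ⟨hu, huW⟩))
          · rw [hqL v hv hh, hqW u huW]
            exact hX v hv hh u hu
        · -- both classes are heavy
          have hv' : v ∈ outN G π (π u) := mem_outN.2 ⟨fun h => huπ h.symm, u, rfl, huv⟩
          have hh : Hv (π v) := by
            rcases h with h | ⟨h3, -⟩
            · exact ⟨h6, Or.inl h⟩
            · exact absurd (outN_sub hM hW _ h3 hu) huW
          have hh' : Hv (π u) := by
            rcases hW (π u) with k | ⟨k6, k | ⟨k3, -⟩⟩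
            · exact absurd (k (mem_cls.2 rfl)) huW
            · exact ⟨k6, Or.inl k⟩
            · exact absurd (outN_sub hM hW _ k3 hv') hv
          obtain ⟨e1, e2⟩ := triv_unique hg (S := cls π (π v) ∩ W) (by have := hh.1; omega)
            (hA _ hh) (hA _ hh') (b := b (π v)) (b' := b (π u)) (by
              intro x hx
              rw [← hb _ hh x (mem_union_left _ hx), ← hb _ hh' x]
              refine mem_union_right _ (mem_inter.2 ⟨?_, (mem_inter.1 hx).2⟩)
              exact cls_sub_outN hM hv' (mem_inter.1 hx).1)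
          refine hskew _ hh v u (hcl v hh) ?_
          rw [hcl u hh', e1, e2]
    refine ⟨⟨q, ?_⟩, ?_⟩
    · rw [mem_mot]
      intro u v huv
      by_cases hu : u ∈ W
      · by_cases hv : v ∈ W
        · rw [hqW u hu, hqW v hv]
          exact hq0' u hu v hv huv
        · have h1 := hone v u hv huv.symm
          rw [← neg_sub (p v), ← neg_sub (q v), neg_dotProduct_neg]
          exact h1
      · exact hone u v hu huv
    · apply Subtype.ext
      funext x
      show q x = q' x
      rw [hqW x (mem_coe.1 x.2), ← hq0]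
      rfl
  exact (LinearEquiv.ofBijective f ⟨hinj, hsurj⟩).finrank_eq.symm

open Classical in
/-- **The reduction.** -/
theorem genRank_red {G : SimpleGraph V} {π : V → κ} (hM : Modules G π) {W : Finset V}
    (hW : ∀ i, Ok G π W i) :
    genRank 3 G = genRank 3 (G.induce (W : Set V)) + 3 * (Wᶜ).card := by
  obtain ⟨p, hp⟩ := exists_mg V 3
  have h1 := mo_eq hp hM hW
  have h2 := genRank_induce hp G W
  have h3 := genRank_add hp G
  have h4 := card_add_card_compl W
  omega

end Pool.Agent.Q140.Rig
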