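import Pool.Agent.Q140.Rig.Ker

/-!
# Complete bipartite graphs: the numbers six and five are best possible
-/

set_option autoImplicit false

namespace Pool.Agent.Q140.Rig

open Matrix Finset Pool.Agent.H789R5 Pool.Agent.H283R2.DR Pool.Agent.TH349.Rig

theorem bip_aux {V : Type} [Fintype V] {G : SimpleGraph V} {f : V → Bool}
    (hG : ∀ x y, G.Adj x y ↔ f x ≠ f y) {a b : ℕ} (ha : 3 ≤ a) (hb : 3 ≤ b)
    (hca : (univ.filter fun v => f v = true).card = a)
    (hcb : (univ.filter fun v => f v = false).card = b) :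
    genRank 3 G = min (a * b) (3 * (a + b) - 6) := by
  classical
  set A : Finset V := univ.filter fun v => f v = true with hA
  have hAc : Aᶜ = univ.filter fun v => f v = false := by
    ext x
    simp [hA]
  have hcA : (Aᶜ).card = b := by
    rw [hAc]
    convert hcb
  have hcA2 : A.card = a := by
    rw [← hca]
  have hV : Fintype.card V = a + b := by
    rw [← hcA, ← hcA2, card_add_card_compl]
  have hJ : Jn G A Aᶜ := by
    refine ⟨disjoint_compl_right, ?_⟩
    intro x hx y hy
    rw [hG]
    rw [hAc] at hy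
    rw [mem_filter] at hx hy
    rw [hx.2, hy.2]
    exact Bool.noConfusion
  have h1 := rank_join (G := G) (A := A) (by convert hJ) (by omega) (by
    have : (Aᶜ).card = b := hcA
    convert hb)
  have h2 := edges_join (G := G) (A := A) (by convert hJ)
  have e1 : (E2 G A).card = 0 := by
    rw [card_eq_zero, eq_empty_iff_forall_notMem]
    intro e
    induction e using Sym2.ind with
    | _ x y =>
      rw [mem_E2, hG, mem_filter, mem_filter]
      rintro ⟨hx, hy, h⟩
      exact h (hx.2.trans hy.2.symm)
  have e2 : (E2 G Aᶜ).card = 0 := by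
    rw [card_eq_zero, eq_empty_iff_forall_notMem]
    intro e
    induction e using Sym2.ind with
    | _ x y =>
      rw [mem_E2, hG, hAc, mem_filter, mem_filter]
      rintro ⟨hx, hy, h⟩
      exact h (hx.2.trans hy.2.symm)
  rw [h1, hV]
  congr 1
  rw [h2]
  have e2' := e2
  have hcA' := hcA
  rw [hcA2, e1, add_zero]
  have : (Aᶜ).card = b := hcA
  convert (rfl : a * b = a * b) using 1
  rw [← hcA, ← add_zero (a * (Aᶜ).card)]
  congr 1
  

theorem bip_rank (a b : ℕ) (ha : 3 ≤ a) (hb : 3 ≤ b) :
    genRank 3 (completeBipartiteGraph (Fin a) (Fin b)) = min (a * b) (3 * (a + b) - 6) := by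
  refine bip_aux (f := Sum.isLeft) ?_ ha hb ?_ ?_
  · intro x y
    rcases x with x | x <;> rcases y with y | y <;> simp
  · rw [← Fintype.card_subtype]
    refine (Fintype.card_congr (β := Fin a) ⟨fun x => (x.1.getLeft x.2),
      fun x => ⟨Sum.inl x, rfl⟩, ?_, ?_⟩).trans (Fintype.card_fin a)
    · rintro ⟨x | x, hx⟩
      · rfl
      · simp at hx
    · intro x; rfl
  · rw [← Fintype.card_subtype]
    refine (Fintype.card_congr (β := Fin b) ⟨fun x => (x.1.getRight (by
      rcases x with ⟨x | x, hx⟩
      · simp at hx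
      · rfl)), fun x => ⟨Sum.inr x, rfl⟩, ?_, ?_⟩).trans (Fintype.card_fin b)
    · rintro ⟨x | x, hx⟩
      · simp at hx
      · rfl
    · intro x; rfl

theorem k46 : genRank 3 (completeBipartiteGraph (Fin 4) (Fin 6)) = 24 :=
  (bip_rank 4 6 (by norm_num) (by norm_num)).trans (by norm_num)

theorem k45 : genRank 3 (completeBipartiteGraph (Fin 4) (Fin 5)) = 20 :=
  (bip_rank 4 5 (by norm_num) (by norm_num)).trans (by norm_num)

theorem k44 : ¬ GenRigid 3 (completeBipartiteGraph (Fin 4) (Fin 4)) := by
  rw [genRigid_rank _ (by simp), bip_rank 4 4 (by norm_num) (by norm_num)]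
  simp

end Pool.Agent.Q140.Rig
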